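import Pool.Agent.NH99.FD.Grid
import Pool.Agent.H730R2.LD.Meas

set_option autoImplicit false

/-!
# Project FD: the final estimate, conditional on the grid statement
-/

namespace Pool.Agent.NH99.FD

open Finset MeasureTheory
open Pool.Agent.TH973.SD (locD measurable_locD)

namespace Fin5

theorem disc_eq {N d : ℕ} {M : ℝ} (hM : 0 < M) (lam : Fin N → ℝ) (ξ : Fin N → Fin d → ℝ)
    (hξ : ∀ μ, ξ μ ∈ Set.Icc (0 : Fin d → ℝ) 1) (x : Fin d → ℝ) :
    |H736R2.Lone.disc Finset.univ (fun μ => M * lam μ) ξ M x| = M * |locD lam ξ x| := by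
  classical
  rw [← abs_of_pos hM, ← abs_mul, abs_of_pos hM, ← abs_neg]
  congr 1
  unfold locD H736R2.Lone.disc
  have : ∀ μ, (Set.Icc (0 : Fin d → ℝ) x).indicator (fun _ => (1:ℝ)) (ξ μ) =
      if ∀ i, ξ μ i ≤ x i then (1 : ℝ) else 0 := by
    intro μ
    have hiff : ξ μ ∈ Set.Icc (0 : Fin d → ℝ) x ↔ ∀ i, ξ μ i ≤ x i :=
      ⟨fun h => h.2, fun h => ⟨(hξ μ).1, h⟩⟩
    by_cases hx : ∀ i, ξ μ i ≤ x i
    · rw [if_pos hx, Set.indicator_of_mem (hiff.2 hx)]
    · rw [if_neg hx, Set.indicator_of_notMem (fun h => hx (hiff.1 h))]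
  simp only [this]
  rw [mul_sub, Finset.mul_sum, neg_sub]
  congr 1
  refine Finset.sum_congr rfl fun μ _ => ?_
  split_ifs <;> ring

theorem isProb (d : ℕ) : IsProbabilityMeasure
    (volume.restrict (Set.Icc (0 : Fin d → ℝ) 1)) := by
  constructor
  rw [Measure.restrict_apply_univ, Real.volume_Icc_pi]
  simp

/-- the bound without the growth factor -/
theorem base (d : ℕ) (hd : 1 ≤ d) : ∃ c : ℝ, 0 < c ∧ ∀ m : ℕ, 2 ≤ m →
    ∀ (lam : Fin m → ℝ) (ξ : Fin m → Fin d → ℝ), (∀ μ, ξ μ ∈ Set.Icc (0 : Fin d → ℝ) 1) →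
      ∀ p : ENNReal, 1 ≤ p →
        ENNReal.ofReal (c * (Real.log m) ^ (((d : ℝ) - 1) / 2) / m) ≤
          eLpNorm (locD lam ξ) p (volume.restrict (Set.Icc (0 : Fin d → ℝ) 1)) := by
  obtain ⟨ε, hε, c, hc, H⟩ := H730R2.LD.measure_sharp d hd 1
  have hprob := isProb d
  refine ⟨c * ε, by positivity, fun m hm lam ξ hξ p hp => ?_⟩
  have hm2 : (2 : ℝ) ≤ m := by exact_mod_cast hm
  have hm0 : (0 : ℝ) < m := by linarith
  have hL : 0 ≤ (Real.log m) ^ (((d : ℝ) - 1) / 2) :=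
    Real.rpow_nonneg (Real.log_nonneg (by linarith)) _
  have key := H m hm2 (Fin m) Finset.univ (fun μ => m * lam μ) ξ (by simp)
  set θ : ℝ := c * (Real.log m) ^ (((d : ℝ) - 1) / 2) / m with hθ
  have hθ0 : 0 ≤ θ := by positivity
  refine le_trans ?_ (eLpNorm_le_eLpNorm_of_exponent_le hp
    (measurable_locD lam ξ).aestronglyMeasurable)
  rw [eLpNorm_one_eq_lintegral_enorm]
  set A : Set (Fin d → ℝ) := {x | x ∈ Set.Icc (0 : Fin d → ℝ) 1 ∧ θ ≤ |locD lam ξ x|} with hA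
  have hAm : MeasurableSet A :=
    measurableSet_Icc.inter (measurableSet_le measurable_const (measurable_locD lam ξ).abs)
  have hAv : ENNReal.ofReal ε ≤ volume A := by
    refine key.trans (measure_mono ?_)
    rintro x ⟨hx1, hx2⟩
    refine ⟨hx1, ?_⟩
    rw [disc_eq hm0 lam ξ hξ x] at hx2
    rw [hθ, div_le_iff₀' hm0]
    exact hx2
  calc ENNReal.ofReal (c * ε * (Real.log m) ^ (((d : ℝ) - 1) / 2) / m)
      = ENNReal.ofReal (θ * ε) := by congr 1; rw [hθ]; ring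
    _ = ENNReal.ofReal θ * ENNReal.ofReal ε := ENNReal.ofReal_mul hθ0
    _ ≤ ENNReal.ofReal θ * volume A := by gcongr
    _ = ∫⁻ _ in A, ENNReal.ofReal θ := by rw [setLIntegral_const]
    _ ≤ ∫⁻ x in A, ‖locD lam ξ x‖ₑ := by
        apply setLIntegral_mono' hAm
        intro x hx
        rw [← ofReal_norm, Real.norm_eq_abs]
        exact ENNReal.ofReal_le_ofReal hx.2
    _ ≤ ∫⁻ x in Set.Icc (0 : Fin d → ℝ) 1, ‖locD lam ξ x‖ₑ :=
        lintegral_mono_set fun x hx => hx.1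

theorem final (hC : S_CORE) (ε : ℝ) (hε : 0 < ε) : ∃ c : ℝ, 0 < c ∧ ∀ m : ℕ, 3 ≤ m →
    ∀ p : ENNReal, 1 ≤ p →
      ∀ (lam : Fin m → ℝ) (ξ : Fin m → Fin 3 → ℝ), (∀ μ, ξ μ ∈ Set.Icc (0 : Fin 3 → ℝ) 1) →
      ENNReal.ofReal (c * (Real.log m) ^ (1 - ε) / m) *
          min (p ^ (1 / 2 : ℝ)) (ENNReal.ofReal ((Real.log m) ^ (1 / 4 : ℝ))) ≤
        eLpNorm (locD lam ξ) p (volume.restrict (Set.Icc (0 : Fin 3 → ℝ) 1)) := by
  obtain ⟨c₁, hc₁, H₁⟩ := base 3 (by norm_num)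
  obtain ⟨a, ha0, ha1, ha2, c₂, hc₂, m₀, hm₀, H₂⟩ := Grid.high hC ε hε
  have hprob := isProb 3
  set L₀ : ℝ := Real.log m₀ with hL₀
  have hL₀1 : 1 ≤ L₀ := by
    rw [hL₀, Real.le_log_iff_exp_le (by exact_mod_cast (by omega : 0 < m₀))]
    have h1 : Real.exp 1 < 3 := lt_trans Real.exp_one_lt_d9 (by norm_num)
    have h2 : (3 : ℝ) ≤ m₀ := by exact_mod_cast hm₀
    linarith
  set c : ℝ := min c₂ (c₁ / (9 + L₀)) with hc
  have hc0 : 0 < c := lt_min hc₂ (by positivity)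
  have hcc : c * (9 + L₀) ≤ c₁ := by
    have : c ≤ c₁ / (9 + L₀) := min_le_right _ _
    rwa [le_div_iff₀ (by positivity)] at this
  refine ⟨c, hc0, fun m hm p hp lam ξ hξ => ?_⟩
  have hm3 : (3 : ℝ) ≤ m := by exact_mod_cast hm
  have hmpos : (0 : ℝ) < m := by linarith
  set L : ℝ := Real.log m with hL
  have hL1 : 1 ≤ L := by
    rw [hL, Real.le_log_iff_exp_le hmpos]
    have h1 : Real.exp 1 < 3 := lt_trans Real.exp_one_lt_d9 (by norm_num)
    linarith
  have hL0 : 0 < L := by linarith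
  have hLe : 0 ≤ L ^ (1 - ε) := Real.rpow_nonneg hL0.le _
  -- the bounded case
  have small : ∀ t : ℝ, 0 ≤ t → t ≤ (9 + L₀) * L ^ ε →
      min (p ^ (1 / 2 : ℝ)) (ENNReal.ofReal (L ^ (1 / 4 : ℝ))) ≤ ENNReal.ofReal t →
      ENNReal.ofReal (c * L ^ (1 - ε) / m) *
          min (p ^ (1 / 2 : ℝ)) (ENNReal.ofReal (L ^ (1 / 4 : ℝ))) ≤
        eLpNorm (locD lam ξ) p (volume.restrict (Set.Icc (0 : Fin 3 → ℝ) 1)) := by
    intro t ht0 ht hmin
    have h1 := H₁ m (by omega) lam ξ hξ p hp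
    have he : (((3 : ℕ) : ℝ) - 1) / 2 = 1 := by norm_num
    rw [he, Real.rpow_one] at h1
    refine le_trans ?_ h1
    calc ENNReal.ofReal (c * L ^ (1 - ε) / m) *
          min (p ^ (1 / 2 : ℝ)) (ENNReal.ofReal (L ^ (1 / 4 : ℝ)))
        ≤ ENNReal.ofReal (c * L ^ (1 - ε) / m) * ENNReal.ofReal t := by gcongr
      _ = ENNReal.ofReal (c * L ^ (1 - ε) / m * t) := (ENNReal.ofReal_mul (by positivity)).symm
      _ ≤ ENNReal.ofReal (c₁ * L / m) := by
          apply ENNReal.ofReal_le_ofReal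
          have e1 : L ^ (1 - ε) * L ^ ε = L := by
            rw [← Real.rpow_add hL0]
            have : 1 - ε + ε = 1 := by ring
            rw [this, Real.rpow_one]
          calc c * L ^ (1 - ε) / m * t ≤ c * L ^ (1 - ε) / m * ((9 + L₀) * L ^ ε) := by gcongr
            _ = (c * (9 + L₀)) * (L ^ (1 - ε) * L ^ ε) / m := by ring
            _ = (c * (9 + L₀)) * L / m := by rw [e1]
            _ ≤ c₁ * L / m := by gcongr
  have hLe1 : 1 ≤ L ^ ε := Real.one_le_rpow hL1 hε.le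
  by_cases hmm : m < m₀
  · apply small (L ^ (1 / 4 : ℝ)) (by positivity) _ (min_le_right _ _)
    have h1 : L ≤ L₀ := by
      rw [hL, hL₀]
      apply Real.log_le_log hmpos
      exact_mod_cast hmm.le
    calc L ^ (1 / 4 : ℝ) ≤ L ^ (1 : ℝ) := Real.rpow_le_rpow_of_exponent_le hL1 (by norm_num)
      _ = L := Real.rpow_one L
      _ ≤ L₀ := h1
      _ ≤ (9 + L₀) * 1 := by linarith
      _ ≤ (9 + L₀) * L ^ ε := by
          apply mul_le_mul_of_nonneg_left hLe1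
          linarith
  · rw [not_lt] at hmm
    by_cases hp2 : p < ENNReal.ofReal (8 * (3 * L) ^ (2 * a))
    · apply small (9 * L ^ a) (by positivity) _ _
      · have h2 : L ^ a ≤ L ^ ε := Real.rpow_le_rpow_of_exponent_le hL1 ha1
        have h3 : 0 ≤ L ^ ε := by linarith
        nlinarith
      · refine (min_le_left _ _).trans ?_
        calc p ^ (1 / 2 : ℝ) ≤ (ENNReal.ofReal (8 * (3 * L) ^ (2 * a))) ^ (1 / 2 : ℝ) :=
              ENNReal.rpow_le_rpow hp2.le (by norm_num)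
          _ = ENNReal.ofReal ((8 * (3 * L) ^ (2 * a)) ^ (1 / 2 : ℝ)) :=
              ENNReal.ofReal_rpow_of_nonneg (by positivity) (by norm_num)
          _ ≤ ENNReal.ofReal (9 * L ^ a) := by
              apply ENNReal.ofReal_le_ofReal
              rw [Real.mul_rpow (by norm_num) (by positivity), ← Real.rpow_mul (by positivity)]
              have e1 : 2 * a * (1 / 2) = a := by ring
              rw [e1, Real.mul_rpow (by norm_num) hL0.le]
              have e2 : (8 : ℝ) ^ (1 / 2 : ℝ) ≤ 3 := by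
                calc (8 : ℝ) ^ (1 / 2 : ℝ) ≤ (9 : ℝ) ^ (1 / 2 : ℝ) :=
                      Real.rpow_le_rpow (by norm_num) (by norm_num) (by norm_num)
                  _ = 3 := by
                      rw [← Real.sqrt_eq_rpow, show (9 : ℝ) = 3 ^ 2 by norm_num,
                        Real.sqrt_sq (by norm_num)]
              have e3 : (3 : ℝ) ^ a ≤ 3 := by
                calc (3 : ℝ) ^ a ≤ (3 : ℝ) ^ (1 : ℝ) :=
                      Real.rpow_le_rpow_of_exponent_le (by norm_num) ha2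
                  _ = 3 := Real.rpow_one 3
              calc (8 : ℝ) ^ (1 / 2 : ℝ) * (3 ^ a * L ^ a) ≤ 3 * (3 * L ^ a) := by gcongr
                _ = 9 * L ^ a := by ring
    · rw [not_lt] at hp2
      obtain ⟨K, hK1, hK2⟩ := H₂ m hmm p hp2 lam ξ hξ
      calc ENNReal.ofReal (c * L ^ (1 - ε) / m) *
            min (p ^ (1 / 2 : ℝ)) (ENNReal.ofReal (L ^ (1 / 4 : ℝ)))
          ≤ ENNReal.ofReal (c₂ * L ^ (1 - ε) / m) *
            min (p ^ (1 / 2 : ℝ)) (ENNReal.ofReal (L ^ (1 / 4 : ℝ))) := by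
            gcongr
            exact min_le_left _ _
        _ ≤ _ := hK2
        _ ≤ _ := eLpNorm_le_eLpNorm_of_exponent_le hK1
            (measurable_locD lam ξ).aestronglyMeasurable

end Fin5

end Pool.Agent.NH99.FD
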