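import Pool.Agent.NH99.FD.StmW
import Pool.Agent.TH973.SD.T

set_option autoImplicit false

/-!
# Project FD: from the grid to the `L_p` norms
-/

namespace Pool.Agent.NH99.FD

open Finset MeasureTheory
open Pool.Agent.TH973.SD (discw locD transfer)

/-- facts about `n = log₂ m + 2` -/
theorem Grid.facts {m n : ℕ} (hm0 : m ≠ 0) (hn : n = Nat.log 2 m + 2) (hn1 : 1000 ≤ n) :
    2 * m ≤ 2 ^ n ∧ 2 ^ n ≤ 4 * m ∧ Real.log m ≤ n ∧ ((n : ℝ) - 2) / 2 ≤ Real.log m := by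
  refine ⟨?_, ?_, ?_, ?_⟩
  · have h1 : m < 2 ^ (Nat.log 2 m + 1) := Nat.lt_pow_succ_log_self (by norm_num) m
    have h2 : 2 ^ n = 2 * 2 ^ (Nat.log 2 m + 1) := by rw [hn, pow_succ, mul_comm]
    omega
  · have h1 : 2 ^ Nat.log 2 m ≤ m := Nat.pow_log_le_self 2 hm0
    have h2 : 2 ^ n = 4 * 2 ^ Nat.log 2 m := by rw [hn, pow_add]; ring
    omega
  · have hmpos : (0 : ℝ) < m := by exact_mod_cast Nat.pos_of_ne_zero hm0
    have hlog2' := Real.log_two_lt_d9
    have h1 : (m : ℝ) ≤ 2 ^ (Nat.log 2 m + 1) := by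
      exact_mod_cast (Nat.lt_pow_succ_log_self (by norm_num) m).le
    have h2 := Real.log_le_log hmpos h1
    rw [Real.log_pow] at h2
    have h3 : (n : ℝ) = (Nat.log 2 m : ℝ) + 2 := by rw [hn]; push_cast; ring
    have h4 : (0 : ℝ) ≤ (Nat.log 2 m : ℝ) := Nat.cast_nonneg _
    rw [h3]
    push_cast at h2
    nlinarith
  · have hlog2 := Real.log_two_gt_d9
    have h1 : (2 : ℝ) ^ (Nat.log 2 m) ≤ m := by
      exact_mod_cast Nat.pow_log_le_self 2 hm0
    have h2 := Real.log_le_log (by positivity) h1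
    rw [Real.log_pow] at h2
    have h3 : (n : ℝ) = (Nat.log 2 m : ℝ) + 2 := by rw [hn]; push_cast; ring
    have h4 : (0 : ℝ) ≤ (Nat.log 2 m : ℝ) := Nat.cast_nonneg _
    rw [h3]
    nlinarith

theorem Grid.grid (hC : S_CORE) (a : ℝ) (ha : 0 < a) (ha' : a ≤ 1 / 28) :
    ∃ n0 : ℕ, 1000 ≤ n0 ∧ ∀ m n : ℕ, m ≠ 0 → n = Nat.log 2 m + 2 → n0 ≤ n → ∀ K : ℕ,
      ((n : ℝ) + 1) ^ (2 * a) ≤ 2 * K + 2 →
      (2 * K + 2 : ℝ) ≤ ((n : ℝ) + 1) ^ (1 / 2 - 5 * a) →
      ∀ (lam : Fin m → ℝ) (ξ : Fin m → Fin 3 → ℝ), (∀ μ, ξ μ ∈ Set.Icc (0 : Fin 3 → ℝ) 1) →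
        ENNReal.ofReal (Real.sqrt (2 * K + 2) * ((n : ℝ) + 1) ^ (1 - a) / 50000 / m) ≤
          eLpNorm (locD lam ξ) ((2 * K + 2 : ℕ) : ENNReal)
            (volume.restrict (Set.Icc (0 : Fin 3 → ℝ) 1)) := by
  obtain ⟨n0, H⟩ := hC a ha ha'
  refine ⟨max n0 1000, le_max_right _ _, ?_⟩
  intro m n hm hn hnn K hK1 hK2 lam ξ hξ
  have hn0 : n0 ≤ n := le_trans (le_max_left _ _) hnn
  have hn1 : 1000 ≤ n := le_trans (le_max_right _ _) hnn
  obtain ⟨f1, f2, f3, f4⟩ := Grid.facts hm hn hn1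
  have hN0 : (0 : ℝ) < (n : ℝ) + 1 := by positivity
  set N : ℝ := (n : ℝ) + 1 with hN
  have hm0 : (0 : ℝ) < m := by exact_mod_cast Nat.pos_of_ne_zero hm
  have hp2 : 0 < N ^ (2 * a) := Real.rpow_pos_of_pos hN0 _
  set Mr : ℝ := (2 * K + 2) / N ^ (2 * a) with hMr
  have hMr1 : 1 ≤ Mr := by
    rw [hMr, le_div_iff₀ hp2]
    linarith
  have hMr2 : Mr ≤ N ^ (1 / 2 - 7 * a) := by
    rw [hMr, div_le_iff₀ hp2, ← Real.rpow_add hN0]
    have : 1 / 2 - 7 * a + 2 * a = 1 / 2 - 5 * a := by ring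
    rw [this]
    exact hK2
  have hMr3 : Mr * N ^ (2 * a) ≤ 2 * K + 2 := by
    rw [hMr, div_mul_cancel₀ _ hp2.ne']
  have hsq : Real.sqrt Mr = Real.sqrt (2 * K + 2) * N ^ (-a) := by
    rw [hMr, Real.sqrt_div (by positivity), div_eq_mul_inv]
    congr 1
    rw [Real.sqrt_eq_rpow, ← Real.rpow_mul hN0.le, ← Real.rpow_neg hN0.le]
    congr 1
    ring
  have hVe : Real.sqrt Mr * N / 50000 = Real.sqrt (2 * K + 2) * N ^ (1 - a) / 50000 := by
    rw [hsq]
    have : N ^ (1 - a) = N ^ (-a) * N := by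
      rw [← Real.rpow_add_one hN0.ne']
      congr 1
      ring
    rw [this]
    ring
  have hsM : 0 < Real.sqrt Mr := Real.sqrt_pos.2 (by linarith)
  have htr := transfer (d := 3) (Nat.pos_of_ne_zero hm) n K (Real.sqrt Mr * N / 50000)
    (by positivity) lam ξ hξ (fun o u => H n hn0 Mr hMr1 hMr2 K hMr3 (Fin m) Finset.univ
      (fun μ => (m : ℝ) * lam μ) (m : ℝ) o u (by simpa using f1) (by exact_mod_cast f2) (by
        have : m ≤ 2 ^ n := by omega
        exact_mod_cast this))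
  rw [hVe] at htr
  exact htr

/-- The bound for large `m` and `p`. -/
theorem Grid.high (hC : S_CORE) (ε : ℝ) (hε : 0 < ε) :
    ∃ a : ℝ, 0 < a ∧ a ≤ ε ∧ a ≤ 1 ∧ ∃ c : ℝ, 0 < c ∧ ∃ m₀ : ℕ, 3 ≤ m₀ ∧ ∀ m : ℕ, m₀ ≤ m →
      ∀ p : ENNReal, ENNReal.ofReal (8 * (3 * Real.log m) ^ (2 * a)) ≤ p →
      ∀ (lam : Fin m → ℝ) (ξ : Fin m → Fin 3 → ℝ), (∀ μ, ξ μ ∈ Set.Icc (0 : Fin 3 → ℝ) 1) →
        ∃ K : ℕ, ((2 * K + 2 : ℕ) : ENNReal) ≤ p ∧
        ENNReal.ofReal (c * (Real.log m) ^ (1 - ε) / m) *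
          min (p ^ (1 / 2 : ℝ)) (ENNReal.ofReal ((Real.log m) ^ (1 / 4 : ℝ))) ≤
          eLpNorm (locD lam ξ) ((2 * K + 2 : ℕ) : ENNReal)
            (volume.restrict (Set.Icc (0 : Fin 3 → ℝ) 1)) := by
  set a : ℝ := min (ε / 4) (1 / 28) with ha
  have ha0 : 0 < a := lt_min (by positivity) (by norm_num)
  have ha1 : a ≤ ε / 4 := min_le_left _ _
  have ha2 : a ≤ 1 / 28 := min_le_right _ _
  obtain ⟨n0, hn0, H⟩ := Grid.grid hC a ha0 ha2
  refine ⟨a, ha0, by linarith, by linarith, 1 / (100000 * 3 ^ ε), by positivity,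
    2 ^ (n0 + 10 ^ 9), ?_, ?_⟩
  · calc 3 ≤ 2 ^ 2 := by norm_num
      _ ≤ 2 ^ (n0 + 10 ^ 9) := Nat.pow_le_pow_right (by norm_num) (by omega)
  intro m hm p hp lam ξ hξ
  have hm0 : m ≠ 0 := by
    have : 0 < 2 ^ (n0 + 10 ^ 9) := Nat.pos_of_ne_zero (by positivity)
    omega
  obtain ⟨n, hn⟩ : ∃ n, n = Nat.log 2 m + 2 := ⟨_, rfl⟩
  have hlog : n0 + 10 ^ 9 ≤ Nat.log 2 m := by
    rw [Nat.le_log_iff_pow_le (by norm_num) hm0]
    exact hm
  have hnn : n0 ≤ n := by omega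
  have hn9 : 10 ^ 9 ≤ n := by omega
  obtain ⟨f1, f2, f3, f4⟩ := Grid.facts hm0 hn (by omega)
  set N : ℝ := (n : ℝ) + 1 with hN
  set L : ℝ := Real.log m with hL
  have hn9R : (10 ^ 9 : ℝ) ≤ n := by exact_mod_cast hn9
  have hN9 : (10 ^ 9 : ℝ) ≤ N := by rw [hN]; linarith
  have hN0 : 0 < N := by linarith
  have hN1 : 1 ≤ N := by linarith
  have hLN : L ≤ N := by rw [hN]; linarith
  have hNL : N ≤ 3 * L := by rw [hN]; linarith
  have hL0 : 0 < L := by linarith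
  have hL1 : 1 ≤ L := by linarith
  have hmR : (0 : ℝ) < m := by exact_mod_cast Nat.pos_of_ne_zero hm0
  -- the truncated exponent
  set X : ℝ := N ^ (1 / 2 - 5 * a) with hX
  have hX0 : 0 < X := Real.rpow_pos_of_pos hN0 _
  set p0 : ENNReal := min p (ENNReal.ofReal X) with hp0
  have hp0top : p0 ≠ ⊤ := ne_top_of_le_ne_top ENNReal.ofReal_ne_top (min_le_right _ _)
  set P0 : ℝ := p0.toReal with hP0
  have hP0e : ENNReal.ofReal P0 = p0 := ENNReal.ofReal_toReal hp0top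
  have hP00 : 0 ≤ P0 := ENNReal.toReal_nonneg
  have hP0X : P0 ≤ X := by
    have : ENNReal.ofReal P0 ≤ ENNReal.ofReal X := by rw [hP0e]; exact min_le_right _ _
    exact (ENNReal.ofReal_le_ofReal_iff hX0.le).1 this
  have hN2a : 1 ≤ N ^ (2 * a) := Real.one_le_rpow hN1 (by linarith)
  have hXbig : 8 * N ^ (2 * a) ≤ X := by
    have e1 : X = N ^ (1 / 2 - 7 * a) * N ^ (2 * a) := by
      rw [hX, ← Real.rpow_add hN0]
      congr 1
      ring
    rw [e1]
    apply mul_le_mul_of_nonneg_right _ (by linarith)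
    calc (8 : ℝ) ≤ ((10 : ℝ) ^ 9) ^ (1 / 4 : ℝ) := by
          have : (8 : ℝ) = ((8 : ℝ) ^ (4 : ℕ)) ^ (1 / 4 : ℝ) := by
            rw [← Real.rpow_natCast, ← Real.rpow_mul (by norm_num)]
            norm_num
          rw [this]
          apply Real.rpow_le_rpow (by norm_num) (by norm_num) (by norm_num)
      _ ≤ N ^ (1 / 4 : ℝ) := Real.rpow_le_rpow (by norm_num) hN9 (by norm_num)
      _ ≤ N ^ (1 / 2 - 7 * a) := Real.rpow_le_rpow_of_exponent_le hN1 (by linarith)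
  have hP0big : 8 * N ^ (2 * a) ≤ P0 := by
    have h1 : ENNReal.ofReal (8 * N ^ (2 * a)) ≤ ENNReal.ofReal P0 := by
      rw [hP0e]
      apply le_min
      · refine le_trans (ENNReal.ofReal_le_ofReal ?_) hp
        apply mul_le_mul_of_nonneg_left _ (by norm_num)
        exact Real.rpow_le_rpow hN0.le hNL (by linarith)
      · exact ENNReal.ofReal_le_ofReal hXbig
    exact (ENNReal.ofReal_le_ofReal_iff hP00).1 h1
  -- the even exponent
  obtain ⟨K, hK⟩ : ∃ K : ℕ, K = ⌊(P0 - 2) / 2⌋₊ := ⟨_, rfl⟩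
  have hP08 : 8 ≤ P0 := by linarith
  have hK1 : (K : ℝ) ≤ (P0 - 2) / 2 := by
    rw [hK]
    exact Nat.floor_le (by linarith)
  have hK2 : (P0 - 2) / 2 < K + 1 := by
    rw [hK]
    exact Nat.lt_floor_add_one _
  have hK3 : (2 * K + 2 : ℝ) ≤ P0 := by linarith
  have hK4 : P0 / 2 ≤ (2 * K + 2 : ℝ) := by linarith
  refine ⟨K, ?_, ?_⟩
  · have : ((2 * K + 2 : ℕ) : ENNReal) = ENNReal.ofReal (2 * K + 2 : ℝ) := by
      rw [← ENNReal.ofReal_natCast]
      push_cast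
      rfl
    rw [this]
    calc ENNReal.ofReal (2 * K + 2 : ℝ) ≤ ENNReal.ofReal P0 := ENNReal.ofReal_le_ofReal hK3
      _ = p0 := hP0e
      _ ≤ p := min_le_left _ _
  · refine le_trans ?_ (H m n hm0 hn hnn K (by linarith) (by linarith) lam ξ hξ)
    -- the minimum
    have hmin : min (p ^ (1 / 2 : ℝ)) (ENNReal.ofReal (L ^ (1 / 4 : ℝ))) ≤
        ENNReal.ofReal (N ^ (5 * a / 2) * Real.sqrt P0) := by
      have h1 : ENNReal.ofReal (Real.sqrt P0) = min (p ^ (1 / 2 : ℝ))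
          (ENNReal.ofReal (X ^ (1 / 2 : ℝ))) := by
        rw [Real.sqrt_eq_rpow, ← ENNReal.ofReal_rpow_of_nonneg hP00 (by norm_num), hP0e, hp0,
          ← ENNReal.ofReal_rpow_of_nonneg hX0.le (by norm_num)]
        exact (ENNReal.monotone_rpow_of_nonneg (by norm_num)).map_min
      have hN52 : 1 ≤ N ^ (5 * a / 2) := Real.one_le_rpow hN1 (by linarith)
      rw [ENNReal.ofReal_mul (by positivity), h1]
      rcases min_cases (p ^ (1 / 2 : ℝ)) (ENNReal.ofReal (X ^ (1 / 2 : ℝ))) with h | h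
      · rw [h.1]
        refine (min_le_left _ _).trans ?_
        calc p ^ (1 / 2 : ℝ) = ENNReal.ofReal 1 * p ^ (1 / 2 : ℝ) := by
              rw [ENNReal.ofReal_one, one_mul]
          _ ≤ _ := by gcongr
      · rw [h.1, ← ENNReal.ofReal_mul (by positivity)]
        refine (min_le_right _ _).trans (ENNReal.ofReal_le_ofReal ?_)
        have e2 : N ^ (5 * a / 2) * X ^ (1 / 2 : ℝ) = N ^ (1 / 4 : ℝ) := by
          rw [hX, ← Real.rpow_mul hN0.le, ← Real.rpow_add hN0]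
          congr 1
          ring
        rw [e2]
        exact Real.rpow_le_rpow hL0.le hLN (by norm_num)
    have hc0 : (0 : ℝ) ≤ 1 / (100000 * 3 ^ ε) * L ^ (1 - ε) / m := by positivity
    calc ENNReal.ofReal (1 / (100000 * 3 ^ ε) * L ^ (1 - ε) / m) *
          min (p ^ (1 / 2 : ℝ)) (ENNReal.ofReal (L ^ (1 / 4 : ℝ)))
        ≤ ENNReal.ofReal (1 / (100000 * 3 ^ ε) * L ^ (1 - ε) / m) *
            ENNReal.ofReal (N ^ (5 * a / 2) * Real.sqrt P0) := by gcongr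
      _ = ENNReal.ofReal (1 / (100000 * 3 ^ ε) * L ^ (1 - ε) / m *
            (N ^ (5 * a / 2) * Real.sqrt P0)) := (ENNReal.ofReal_mul hc0).symm
      _ ≤ _ := by
        apply ENNReal.ofReal_le_ofReal
        have h3 : (0 : ℝ) < 3 ^ ε := by positivity
        have s1 : L ^ (1 - ε) ≤ N * (3 ^ ε * N ^ (-ε)) := by
          have e3 : L ^ (1 - ε) = L * L ^ (-ε) := by
            rw [sub_eq_add_neg, Real.rpow_add hL0, Real.rpow_one]
          rw [e3]
          apply mul_le_mul hLN _ (by positivity) hN0.le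
          have e4 : (3 : ℝ) ^ ε * N ^ (-ε) = (N / 3) ^ (-ε) := by
            rw [Real.div_rpow hN0.le (by norm_num), Real.rpow_neg (by norm_num : (0:ℝ) ≤ 3)]
            field_simp
          rw [e4]
          apply Real.rpow_le_rpow_of_nonpos (by linarith) (by linarith) (by linarith)
        have s2 : Real.sqrt P0 ≤ 2 * Real.sqrt (2 * K + 2) := by
          calc Real.sqrt P0 ≤ Real.sqrt (2 ^ 2 * (2 * K + 2)) :=
                Real.sqrt_le_sqrt (by linarith)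
            _ = 2 * Real.sqrt (2 * K + 2) := by
                rw [Real.sqrt_mul (by norm_num), Real.sqrt_sq (by norm_num)]
        have s3 : N * (3 ^ ε * N ^ (-ε)) * N ^ (5 * a / 2) ≤ 3 ^ ε * N ^ (1 - a) := by
          have e5 : N * (3 ^ ε * N ^ (-ε)) * N ^ (5 * a / 2) =
              3 ^ ε * N ^ (1 - ε + 5 * a / 2) := by
            have : N ^ (1 - ε + 5 * a / 2) = N * N ^ (-ε) * N ^ (5 * a / 2) := by
              rw [Real.rpow_add hN0, sub_eq_add_neg, Real.rpow_add hN0, Real.rpow_one]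
            rw [this]
            ring
          rw [e5]
          apply mul_le_mul_of_nonneg_left _ h3.le
          apply Real.rpow_le_rpow_of_exponent_le hN1
          linarith
        have hs0 : 0 ≤ Real.sqrt P0 := Real.sqrt_nonneg _
        have hN5 : 0 ≤ N ^ (5 * a / 2) := by positivity
        calc 1 / (100000 * 3 ^ ε) * L ^ (1 - ε) / m * (N ^ (5 * a / 2) * Real.sqrt P0)
            = 1 / (100000 * 3 ^ ε) * (L ^ (1 - ε) * N ^ (5 * a / 2)) * Real.sqrt P0 / m := by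
              ring
          _ ≤ 1 / (100000 * 3 ^ ε) * (3 ^ ε * N ^ (1 - a)) * (2 * Real.sqrt (2 * K + 2)) / m := by
              apply div_le_div_of_nonneg_right _ hmR.le
              apply mul_le_mul _ s2 hs0 (by positivity)
              apply mul_le_mul_of_nonneg_left _ (by positivity)
              exact (mul_le_mul_of_nonneg_right s1 hN5).trans s3
          _ = Real.sqrt (2 * K + 2) * N ^ (1 - a) / 50000 / m := by
              field_simp
              ring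

end Pool.Agent.NH99.FD
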