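import Mathlib

set_option autoImplicit false

/-!
# Project FD: matching polynomials of 3-partite linear hypergraphs

Definitions used for the lower bound of the star discrepancy in dimension three
(MP_173de9_an).  An edge is a triple of levels `r : Fin 3 → ℕ`, a vertex is a pair `(i, c)`
(coordinate, level), the edge `r` has the vertices `(i, r i)`.
-/

namespace Pool.Agent.NH99.FD

open Finset

/-- edges -/
abbrev Ed : Type := Fin 3 → ℕ

/-- vertices -/
abbrev Vx : Type := Fin 3 × ℕ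

/-- the part of an edge in the coordinates `I` -/
def res (I : Finset (Fin 3)) (r : Ed) : Finset Vx := I.image (fun i => (i, r i))

/-- the vertices of an edge -/
def vs (r : Ed) : Finset Vx := res univ r

/-- the coordinates in which the edge `r` meets the vertex set `p` -/
def posn (p : Finset Vx) (r : Ed) : Finset (Fin 3) := univ.filter (fun i => (i, r i) ∈ p)

/-- matchings: pairwise distinct in every coordinate -/
def Mt (R : Finset Ed) : Prop := ∀ r ∈ R, ∀ r' ∈ R, r ≠ r' → ∀ i, r i ≠ r' i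

open Classical in
/-- the matching polynomial (as a power series) -/
noncomputable def Z (S : Finset Ed) (y : Ed → ℝ) : PowerSeries ℝ :=
  ∑ R ∈ S.powerset.filter Mt, PowerSeries.monomial R.card (∏ r ∈ R, y r)

/-- the edges that do not meet `p` -/
def del (S : Finset Ed) (p : Finset Vx) : Finset Ed := S.filter (fun r => posn p r = ∅)

/-- the edges through a vertex -/
def star (S : Finset Ed) (v : Vx) : Finset Ed := S.filter (fun r => r v.1 = v.2)

/-- quotients of matching polynomials -/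
noncomputable def U (S : Finset Ed) (y : Ed → ℝ) (p : Finset Vx) : PowerSeries ℝ :=
  Z (del S p) y * (Z S y)⁻¹

/-- the quotient for one vertex -/
noncomputable def ab (S : Finset Ed) (y : Ed → ℝ) (a : Vx) : PowerSeries ℝ := U S y {a}

/-- centred quotients -/
noncomputable def MM (S : Finset Ed) (y : Ed → ℝ) (B p : Finset Vx) : PowerSeries ℝ :=
  ∑ q ∈ p.powerset, (∏ a ∈ p \ q, -ab S y a) * U S y (q ∪ B)

/-- the truncated correlations -/
noncomputable def th (S : Finset Ed) (y : Ed → ℝ) (p : Finset Vx) : PowerSeries ℝ := MM S y ∅ p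

/-- first local sum -/
noncomputable def GG (S : Finset Ed) (y : Ed → ℝ) (v : Vx) : PowerSeries ℝ :=
  ∑ r ∈ star S v, PowerSeries.C (y r) * ∏ a ∈ res (univ.erase v.1) r, ab S y a

/-- second local sum -/
noncomputable def QQ (S : Finset Ed) (y : Ed → ℝ) (v : Vx) : PowerSeries ℝ :=
  ∑ r ∈ star S v, PowerSeries.C (y r) *
    ∑ I ∈ (univ : Finset (Fin 3)).powerset.filter (fun I => 2 ≤ I.card),
      (∏ a ∈ res Iᶜ r, ab S y a) * th S y (res I r)

/-- the building blocks of the recursion for `th` -/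
noncomputable def TT (S : Finset Ed) (y : Ed → ℝ) (i0 : Fin 3) (c : ℕ) (K I : Finset (Fin 3))
    (w : Ed → PowerSeries ℝ) (p : Finset Vx) : PowerSeries ℝ :=
  ∑ r ∈ S.filter (fun r => r i0 = c ∧ posn p r = K),
    PowerSeries.C (y r) * w r * th S y ((p \ res K r) ∪ res I r)

/-- Euler operator -/
noncomputable def XD (φ : PowerSeries ℝ) : PowerSeries ℝ :=
  PowerSeries.mk (fun n => (n : ℝ) * PowerSeries.coeff n φ)

/-- `n` times the coefficients of the logarithm -/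
noncomputable def lc (φ : PowerSeries ℝ) (n : ℕ) : ℝ := PowerSeries.coeff n (XD φ * φ⁻¹)

/-- the logarithm, truncated at order `J`, at the point `1` -/
noncomputable def WJ (J : ℕ) (φ : PowerSeries ℝ) : ℝ := ∑ j ∈ Icc 1 J, lc φ j / j

/-- the vertex sets of size `m` with levels below `L` -/
def VP (L m : ℕ) : Finset (Finset Vx) := ((univ : Finset (Fin 3)) ×ˢ range L).powersetCard m

/-- square of the `l2` norm over the vertex sets of size `m` -/
noncomputable def N2 (L m : ℕ) (F : Finset Vx → ℝ) : ℝ := ∑ p ∈ VP L m, F p ^ 2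

/-- The hypotheses on a weighted 3-partite linear hypergraph. -/
structure Hy (S : Finset Ed) (y : Ed → ℝ) (L Nb : ℕ) (ρ A σ : ℝ) : Prop where
  lt : ∀ r ∈ S, ∀ i, r i < L
  lin : ∀ r ∈ S, ∀ r' ∈ S, ∀ i j : Fin 3, i ≠ j → r i = r' i → r j = r' j → r = r'
  deg : ∀ v : Vx, (star S v).card ≤ Nb
  card : S.card ≤ Nb ^ 2
  Nb1 : 1 ≤ Nb
  rho0 : 0 ≤ ρ
  sig0 : 0 < σ
  sig1 : σ ≤ 1
  A1 : 1 ≤ A
  yle : ∀ r ∈ S, |y r| ≤ ρ
  c1 : ρ * Nb ≤ A
  c2 : ρ ^ 2 * Nb * A ^ 2 ≤ σ ^ 10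
  c3 : ρ * A ^ 2 ≤ σ ^ 6
  vert : ∀ v : Vx, (∑ r ∈ star S v, y r) ^ 2 ≤ σ ^ 10
  op : ∀ i j : Fin 3, i ≠ j → ∀ x : ℕ → ℝ,
    ∑ c ∈ range L, (∑ r ∈ star S (i, c), y r * x (r j)) ^ 2 ≤ σ ^ 10 * ∑ c ∈ range L, x c ^ 2
  sq : ∀ i : Fin 3, ∑ c ∈ range L, (∑ r ∈ star S (i, c), y r) ^ 2 ≤ A ^ 2

/-- bounds for the one point functions, order `n` -/
def PA (S : Finset Ed) (y : Ed → ℝ) (L : ℕ) (A σ : ℝ) (n : ℕ) (C : ℝ) : Prop :=
  (∀ v : Vx, |PowerSeries.coeff n (1 - ab S y v)| ≤ C * σ ^ (2 * n)) ∧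
  ∀ i : Fin 3, σ ^ 4 * ∑ c ∈ range L, PowerSeries.coeff n (1 - ab S y (i, c)) ^ 2 ≤
    (C * A * σ ^ (2 * n)) ^ 2

/-- bounds for the truncated correlations of size `m`, order `n` -/
def PT (S : Finset Ed) (y : Ed → ℝ) (L : ℕ) (A σ : ℝ) (n m : ℕ) (C : ℝ) : Prop :=
  σ ^ (2 * m) * N2 L m (fun p => PowerSeries.coeff n (th S y p)) ≤
    (C * A ^ (m / 2) * σ ^ (2 * n)) ^ 2

/-- bounds for `GG`, order `n` -/
def PG (S : Finset Ed) (y : Ed → ℝ) (L : ℕ) (A σ : ℝ) (n : ℕ) (C : ℝ) : Prop :=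
  (∀ v : Vx, |PowerSeries.coeff n (GG S y v)| ≤ C * σ ^ (2 * n + 2)) ∧
  ∀ i : Fin 3, ∑ c ∈ range L, PowerSeries.coeff n (GG S y (i, c)) ^ 2 ≤ (C * A * σ ^ (2 * n)) ^ 2

/-- bounds for `QQ`, order `n` -/
def PQ (S : Finset Ed) (y : Ed → ℝ) (L : ℕ) (σ : ℝ) (n : ℕ) (C : ℝ) : Prop :=
  (∀ v : Vx, |PowerSeries.coeff n (QQ S y v)| ≤ C * σ ^ (2 * n + 2)) ∧
  ∀ i : Fin 3, ∑ c ∈ range L, PowerSeries.coeff n (QQ S y (i, c)) ^ 2 ≤
    (C * σ ^ (2 * n + 2)) ^ 2

end Pool.Agent.NH99.FD
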