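import Pool.Agent.NH99.FD.Stm
import Pool.Agent.TH973.SD.W1
import Pool.Agent.W776.GD.P1

set_option autoImplicit false

/-!
# Project FD: statements (probabilistic part, pairing, parameters)
-/

namespace Pool.Agent.NH99.FD

open Finset
open Pool.Agent.H397R2.SD (E)
open Pool.Agent.W776.GD (Om flp fE empt)
open Pool.Agent.TH973.SD (discw)

/-- odd part with respect to an involution -/
noncomputable def half {Ω : Type} (T : Ω → Ω) (g : Ω → ℝ) (x : Ω) : ℝ := (g x - g (T x)) / 2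

/-- odd part with respect to the three involutions of index `s i - 1` -/
noncomputable def OO {Ω : Type} (T : Fin 3 → ℕ → Ω → Ω) (s : Ed) (g : Ω → ℝ) : Ω → ℝ :=
  half (T 0 (s 0 - 1)) (half (T 1 (s 1 - 1)) (half (T 2 (s 2 - 1)) g))

/-- truncated exponential series -/
noncomputable def te (M : ℕ) (w : ℝ) : ℝ := ∑ j ∈ range (M + 1), w ^ j / (j.factorial : ℝ)

/-- the index cube -/
def box (N : ℕ) : Finset Ed := Fintype.piFinset (fun _ => Icc 1 N)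

/-- lower one index by one -/
def dn (s : Ed) (i : Fin 3) : Ed := Function.update s i (s i - 1)

/-- the test function -/
noncomputable def Psi {Ω : Type} (T : Fin 3 → ℕ → Ω → Ω) (N M : ℕ) (W : Ed → Ω → ℝ) (x : Ω) : ℝ :=
  1 + ∑ s ∈ box N, OO T s (fun z => te M (W s z)) x

/-- the edges below `s` -/
def edg (n : ℕ) (s : Ed) : Finset Ed :=
  (Fintype.piFinset (fun i => range (s i))).filter (fun r => ∑ i, r i = n)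

/-- the weights -/
noncomputable def yy {n : ℕ} {ι : Type} (ρ : ℝ) (P : Finset ι) (o : ι → Fin 3 → ℕ) (x : Om 3 n)
    (r : Ed) : ℝ := ρ * fE P o r x

/-- the truncated logarithms -/
noncomputable def Wd {n : ℕ} {ι : Type} (J : ℕ) (ρ : ℝ) (P : Finset ι) (o : ι → Fin 3 → ℕ)
    (s : Ed) (x : Om 3 n) : ℝ := WJ J (Z (edg n s) (yy ρ P o x))

/-- the flips -/
def TF {n : ℕ} (c : Fin 3) (k : ℕ) (x : Om 3 n) : Om 3 n := flp c k x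

/-- the good event -/
def Gd {n : ℕ} {ι : Type} (q : ℕ) (P : Finset ι) (o : ι → Fin 3 → ℕ) (x : Om 3 n) : Prop :=
  ∀ s : Ed, (∀ i, s i ≤ n + 1) →
    (∀ v : Vx, (∑ r ∈ star (edg n s) v, fE P o r x) ^ 2 ≤ 8 * q * (n + 1)) ∧
    (∀ i j : Fin 3, i ≠ j → ∀ v : ℕ → ℝ,
      ∑ c ∈ range (n + 1), (∑ r ∈ star (edg n s) (i, c), fE P o r x * v (r j)) ^ 2 ≤
        2 * q * (n + 1) * ∑ c ∈ range (n + 1), v c ^ 2) ∧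
    (∀ i : Fin 3, ∑ c ∈ range (n + 1), (∑ r ∈ star (edg n s) (i, c), fE P o r x) ^ 2 ≤
      12 * (n + 1) ^ 2) ∧
    (∑ r ∈ edg n s, fE P o r x) ^ 2 ≤ 96 * q * (n + 1) ^ 2

/-! ### Abstract martingale part -/

/-- FD-21: telescoping -/
def S_TEL : Prop := ∀ (Ω : Type) [Fintype Ω] [Nonempty Ω] (T : Fin 3 → ℕ → Ω → Ω)
  (e : Ed → Ω → ℝ) (N : ℕ) (κ : ℝ),
  (∀ i k x, T i k (T i k x) = x) →
  (∀ s : Ed, (∃ i, s i = 0) → ∀ x, e s x = 1) →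
  (∀ s : Ed, (∀ i, s i ≤ N) → ∀ i, 1 ≤ s i →
    E (fun x => |(e s x + e s (T i (s i - 1) x)) / 2 - e (dn s i) x|) ≤ κ) →
  E (fun x => |1 + ∑ s ∈ box N, OO T s (e s) x - e (fun _ => N) x|) ≤ 12 * (N : ℝ) ^ 3 * κ

open Classical in
/-- FD-22: the `L1` norm of the test function -/
def S_L1 : Prop := ∀ (Ω : Type) [Fintype Ω] [Nonempty Ω] (T : Fin 3 → ℕ → Ω → Ω)
  (W : Ed → Ω → ℝ) (Good : Ω → Prop) (N M : ℕ) (w B ε τ : ℝ),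
  (∀ i k x, T i k (T i k x) = x) →
  1 ≤ N → 1 ≤ w → 0 ≤ B → 0 ≤ ε → 0 ≤ τ → 16 * (w + 1) ≤ M →
  (∀ s : Ed, (∃ i, s i = 0) → ∀ x, W s x = 0) →
  (∀ s : Ed, (∀ i, s i ≤ N) → ∀ x, |W s x| ≤ B) →
  (∀ x, Good x → ∀ s : Ed, (∀ i, s i ≤ N) →
    |W s x| ≤ w ∧ ∀ i, 1 ≤ s i → |W s (T i (s i - 1) x)| ≤ w + 1) →
  (∀ x, Good x → ∀ s : Ed, (∀ i, s i ≤ N) → ∀ i, 1 ≤ s i →
    |(Real.exp (W s x) + Real.exp (W s (T i (s i - 1) x))) / 2 - Real.exp (W (dn s i) x)| ≤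
      ε * Real.exp (W (dn s i) x)) →
  E (fun x => if Good x then (0 : ℝ) else 1) ≤ τ →
  12 * (N : ℝ) ^ 3 * (4 * ε + 4 * (1 / 2) ^ M + 4 * (1 + B) ^ M * τ) ≤ 1 →
  E (fun x => |Psi T N M W x|) ≤ 3

/-- FD-23: Hölder's inequality in the form needed -/
def S_HOL : Prop := ∀ (Ω : Type) [Fintype Ω] [Nonempty Ω] (D g : Ω → ℝ) (G V' : ℝ) (K : ℕ),
  0 < V' → 0 < G → E (fun x => |g x|) ≤ 4 → (∀ x, |g x| ≤ G) →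
  0 ≤ E (fun x => D x * g x) →
  (4 * V') ^ (2 * K + 2) * G ≤ E (fun x => D x * g x) ^ (2 * K + 2) →
  1 ≤ E (fun x => (D x / V') ^ (2 * K + 2))

/-! ### Pairing with the discrepancy -/

/-- FD-24: flips -/
def S_FLP : Prop :=
  (∀ (n : ℕ) (c c' : Fin 3) (k k' : ℕ) (x : Om 3 n),
    TF c k (TF c' k' x) = TF c' k' (TF c k x)) ∧
  (∀ (n : ℕ) (s : Ed) (i : Fin 3) (g : Om 3 n → ℝ) (x : Om 3 n),
    OO TF s g (TF i (s i - 1) x) = -OO TF s g x) ∧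
  (∀ (n : ℕ) (s : Ed) (g : Om 3 n → ℝ) (H : ℝ), (∀ x, |g x| ≤ H) → ∀ x, |OO TF s g x| ≤ H) ∧
  (∀ (n : ℕ) (ι : Type) (ρ : ℝ) (P : Finset ι) (o : ι → Fin 3 → ℕ) (s : Ed) (i : Fin 3)
    (x : Om 3 n) (r : Ed), r ∈ edg n s → 1 ≤ s i →
    (r i ≠ s i - 1 → yy ρ P o (TF i (s i - 1) x) r = yy ρ P o x r) ∧
    (r i = s i - 1 → yy ρ P o (TF i (s i - 1) x) r = -yy ρ P o x r))

/-- FD-25: the main terms -/
def S_D1 : Prop := ∀ (n J M : ℕ) (ρ : ℝ) (ι : Type) (P : Finset ι) (w : ι → ℝ) (V : ℝ)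
  (o : ι → Fin 3 → ℕ) (u : Fin 3 → ℝ) (a : Ed), 1 ≤ J → 1 ≤ M → 0 < ρ → ρ ≤ 1 / 8 →
  2 * P.card ≤ 2 ^ n → (2 : ℝ) ^ n ≤ 4 * V → ∑ i, a i = n →
  ρ / 1024 ≤ E (fun x : Om 3 n => discw P w V o u x *
    OO TF (fun i => a i + 1) (fun z => te M (Wd J ρ P o (fun i => a i + 1) z)) x)

/-- FD-26: the other terms -/
def S_D2 : Prop := ∀ (n J M : ℕ) (ρ : ℝ) (ι : Type) (P : Finset ι) (w : ι → ℝ) (V : ℝ)
  (o : ι → Fin 3 → ℕ) (u : Fin 3 → ℝ) (a : Ed), 0 ≤ V → (∀ i, a i ≤ n) →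
  (∑ i, a i < n → ∀ x : Om 3 n,
    OO TF (fun i => a i + 1) (fun z => te M (Wd J ρ P o (fun i => a i + 1) z)) x = 0) ∧
  (n < ∑ i, a i → ∀ H : ℝ, 0 ≤ H →
    ((∀ x : Om 3 n, |te M (Wd J ρ P o (fun i => a i + 1) x)| ≤ H) ∨
      (∀ x : Om 3 n, |te M (Wd J ρ P o (fun i => a i + 1) x) - 1 -
        ∑ r ∈ edg n (fun i => a i + 1), yy ρ P o x r| ≤ H)) →
    |E (fun x : Om 3 n => discw P w V o u x *
      OO TF (fun i => a i + 1) (fun z => te M (Wd J ρ P o (fun i => a i + 1) z)) x)| ≤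
      V * (1 / 2) ^ (∑ i, a i) * (1 / 4) ^ 3 * H)

/-- FD-27: sup bounds -/
def S_WIN : Prop := ∀ J : ℕ, 1 ≤ J → ∃ C : ℝ, 1 ≤ C ∧
  ∀ (n M : ℕ) (ρ : ℝ) (ι : Type) (P : Finset ι) (o : ι → Fin 3 → ℕ), 1 ≤ M → 0 ≤ ρ → ρ ≤ 1 →
    (∀ (a : Ed) (k : ℕ), (∀ i, a i ≤ n) → ∑ i, a i = n + k →
      (C * ρ * (k + 1) ^ 2 ≤ 1 → ∀ x : Om 3 n,
        |te M (Wd J ρ P o (fun i => a i + 1) x) - 1 -
          ∑ r ∈ edg n (fun i => a i + 1), yy ρ P o x r| ≤ C * ρ ^ 2 * (k + 1) ^ 4) ∧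
      (C * ρ * (k + 1) ≤ 1 → ∀ x : Om 3 n,
        |te M (Wd J ρ P o (fun i => a i + 1) x)| ≤ Real.exp ((k + 1) / 50))) ∧
    (∀ (s : Ed), (∀ i, s i ≤ n + 1) → ∀ x : Om 3 n,
      |Wd J ρ P o s x| ≤ C * ((n : ℝ) + 1) ^ (J + 2))

/-- FD-28: the pairing -/
def S_PAIR : Prop := ∀ J : ℕ, 1 ≤ J → ∃ C : ℝ, 1 ≤ C ∧
  ∀ (n M : ℕ) (ρ B : ℝ) (ι : Type) (P : Finset ι) (w : ι → ℝ) (V : ℝ)
    (o : ι → Fin 3 → ℕ) (u : Fin 3 → ℝ), 1 ≤ M → 0 < ρ → C * ρ ≤ 1 → 0 ≤ B →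
    2 * P.card ≤ 2 ^ n → (2 : ℝ) ^ n ≤ 4 * V → V ≤ 2 ^ n →
    (∀ (s : Ed), (∀ i, s i ≤ n + 1) → ∀ x : Om 3 n, |Wd J ρ P o s x| ≤ B) →
    (∀ k : ℕ, 1 < C * ρ * (k + 1) → (1 + B) ^ (2 * M) ≤ 2 ^ k) →
    ((n : ℝ) + 1) ^ 2 * ρ / 4096 ≤
      E (fun x : Om 3 n => discw P w V o u x * (Psi TF (n + 1) M (Wd J ρ P o) x - 1))

/-! ### The good event -/

open Classical in
/-- FD-31: operator norms and vertex sums, one index `s` -/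
def S_P1 : Prop := ∀ (n q : ℕ) (ι : Type) (P : Finset ι) (o : ι → Fin 3 → ℕ) (s : Ed),
  1 ≤ q → (∀ i, s i ≤ n + 1) →
  (∀ v : Vx, E (fun x : Om 3 n =>
    if (∑ r ∈ star (edg n s) v, fE P o r x) ^ 2 ≤ 8 * q * (n + 1) then (0 : ℝ) else 1) ≤
      2 * (1 / 2) ^ q) ∧
  (∀ i j : Fin 3, i ≠ j → E (fun x : Om 3 n =>
    if ∀ v : ℕ → ℝ,
      ∑ c ∈ range (n + 1), (∑ r ∈ star (edg n s) (i, c), fE P o r x * v (r j)) ^ 2 ≤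
        2 * q * (n + 1) * ∑ c ∈ range (n + 1), v c ^ 2 then (0 : ℝ) else 1) ≤
      2 * (n + 1) * (1 / 2) ^ q)

open Classical in
/-- FD-32: square functions and total sum, one index `s` -/
def S_P2 : Prop := ∀ (n q : ℕ) (ι : Type) (P : Finset ι) (o : ι → Fin 3 → ℕ) (s : Ed),
  1 ≤ q → q ^ 2 ≤ n + 1 → (∀ i, s i ≤ n + 1) →
  (∀ i : Fin 3, E (fun x : Om 3 n =>
    if ∑ c ∈ range (n + 1), (∑ r ∈ star (edg n s) (i, c), fE P o r x) ^ 2 ≤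
      12 * (n + 1) ^ 2 then (0 : ℝ) else 1) ≤ (2 * (n + 1) + 1) * (1 / 2) ^ q) ∧
  E (fun x : Om 3 n =>
    if (∑ r ∈ edg n s, fE P o r x) ^ 2 ≤ 96 * q * (n + 1) ^ 2 then (0 : ℝ) else 1) ≤
      (2 * (n + 1) + 2) * (1 / 2) ^ q

open Classical in
/-- FD-33: the good event -/
def S_P : Prop := ∀ (n q : ℕ) (ι : Type) (P : Finset ι) (o : ι → Fin 3 → ℕ),
  1 ≤ q → q ^ 2 ≤ n + 1 →
  E (fun x : Om 3 n => if Gd q P o x then (0 : ℝ) else 1) ≤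
    ((n : ℝ) + 2) ^ 12 * (1 / 2) ^ q

/-! ### The link -/

/-- the conditions on the parameters -/
structure Par (n q : ℕ) (ρ A σ : ℝ) : Prop where
  rho0 : 0 ≤ ρ
  sig0 : 0 < σ
  sig1 : σ ≤ 1
  A1 : 1 ≤ A
  c1 : ρ * (n + 1) ≤ A
  c2 : ρ ^ 2 * (n + 1) * A ^ 2 ≤ σ ^ 10
  c3 : ρ * A ^ 2 ≤ σ ^ 6
  c4 : 8 * ρ ^ 2 * q * (n + 1) ≤ σ ^ 10
  c5 : 12 * ρ ^ 2 * (n + 1) ^ 2 ≤ A ^ 2

/-- FD-34: the hypotheses of the deterministic part hold on the good event -/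
def S_HYG : Prop := ∀ (n q : ℕ) (ρ A σ : ℝ) (ι : Type) (P : Finset ι) (o : ι → Fin 3 → ℕ)
  (x : Om 3 n), Par n q ρ A σ → Gd q P o x → ∀ s : Ed, (∀ i, s i ≤ n + 1) →
    Hy (edg n s) (yy ρ P o x) (n + 1) (n + 1) ρ A σ

/-- FD-35: pointwise properties on the good event -/
def S_PTW : Prop := ∀ J : ℕ, 1 ≤ J → ∃ C : ℝ, 1 ≤ C ∧
  ∀ (n q : ℕ) (ρ A σ w : ℝ) (ι : Type) (P : Finset ι) (o : ι → Fin 3 → ℕ) (x : Om 3 n),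
    Par n q ρ A σ → Gd q P o x → C * σ ^ 2 ≤ 1 / 8 →
    2 ^ (J + 3) * (C * σ ^ 2) ^ (J + 1) ≤ 1 →
    ρ * Real.sqrt (96 * q) * (n + 1) + C * A ^ 2 / σ ≤ w →
    ∀ s : Ed, (∀ i, s i ≤ n + 1) →
      |Wd J ρ P o s x| ≤ w ∧
      ∀ i, 1 ≤ s i → |Wd J ρ P o s (TF i (s i - 1) x)| ≤ w + 1 ∧
        |(Real.exp (Wd J ρ P o s x) + Real.exp (Wd J ρ P o s (TF i (s i - 1) x))) / 2 -
          Real.exp (Wd J ρ P o (dn s i) x)| ≤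
          2 ^ (J + 5) * (C * σ ^ 2) ^ (J + 1) * Real.exp (Wd J ρ P o (dn s i) x)

/-- parameters: `N = n + 1`, `σ = N ^ (-a)` -/
noncomputable def pS (n : ℕ) (a : ℝ) : ℝ := ((n : ℝ) + 1) ^ (-a)

/-- parameters: `ρ` -/
noncomputable def pR (n : ℕ) (Mr : ℝ) : ℝ := Real.sqrt Mr / ((n : ℝ) + 1)

/-- parameters: `A` -/
noncomputable def pA (Mr : ℝ) : ℝ := Real.sqrt (13 * Mr)

/-- parameters: `q` -/
noncomputable def pq (n : ℕ) (a Mr : ℝ) : ℕ := ⌈Mr * ((n : ℝ) + 1) ^ (2 * a)⌉₊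

/-- parameters: `w` -/
noncomputable def pw (n : ℕ) (a C Mr : ℝ) : ℝ := (14 + 13 * C) * Mr * ((n : ℝ) + 1) ^ a

/-- parameters: `M` -/
noncomputable def pM (n : ℕ) (a C Mr : ℝ) : ℕ := ⌈16 * (pw n a C Mr + 1)⌉₊

/-- parameters: `B` -/
noncomputable def pB (n J : ℕ) (C : ℝ) : ℝ := C * ((n : ℝ) + 1) ^ (J + 2)

/-- FD-36a: the choice of the parameters, powers -/
def S_NUM1 : Prop := ∀ (a C : ℝ) (J : ℕ), 0 < a → a ≤ 1 / 28 → 1 ≤ C → 3 ≤ a * J →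
  ∃ n0 : ℕ, ∀ n : ℕ, n0 ≤ n → ∀ Mr : ℝ, 1 ≤ Mr → Mr ≤ ((n : ℝ) + 1) ^ (1 / 2 - 7 * a) →
    Par n (pq n a Mr) (pR n Mr) (pA Mr) (pS n a) ∧ 1 ≤ pq n a Mr ∧ pq n a Mr ^ 2 ≤ n + 1 ∧
      1 ≤ pw n a C Mr ∧ 16 * (pw n a C Mr + 1) ≤ pM n a C Mr ∧ C * pS n a ^ 2 ≤ 1 / 8 ∧
      2 ^ (J + 3) * (C * pS n a ^ 2) ^ (J + 1) ≤ 1 ∧
      pR n Mr * Real.sqrt (96 * pq n a Mr) * (n + 1) + C * pA Mr ^ 2 / pS n a ≤ pw n a C Mr ∧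
      48 * ((n : ℝ) + 1) ^ 3 * (2 ^ (J + 5) * (C * pS n a ^ 2) ^ (J + 1)) ≤ 1 / 3 ∧
      C * pR n Mr ≤ 1 ∧ 0 < pR n Mr

/-- FD-36b: the choice of the parameters, exponentials -/
def S_NUM2 : Prop := ∀ (a C : ℝ) (J : ℕ), 0 < a → a ≤ 1 / 28 → 1 ≤ C →
  ∃ n0 : ℕ, ∀ n : ℕ, n0 ≤ n → ∀ Mr : ℝ, 1 ≤ Mr → Mr ≤ ((n : ℝ) + 1) ^ (1 / 2 - 7 * a) →
    48 * ((n : ℝ) + 1) ^ 3 * (1 / 2) ^ pM n a C Mr ≤ 1 / 3 ∧
      48 * ((n : ℝ) + 1) ^ 3 * ((1 + pB n J C) ^ pM n a C Mr *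
        (((n : ℝ) + 2) ^ 12 * (1 / 2) ^ pq n a Mr)) ≤ 1 / 3 ∧
      (∀ k : ℕ, 1 < C * pR n Mr * (k + 1) → (1 + pB n J C) ^ (2 * pM n a C Mr) ≤ 2 ^ k) ∧
      ((n : ℝ) + 1) ^ 3 * (1 + pB n J C) ^ pM n a C Mr ≤
        Real.exp (Mr * ((n : ℝ) + 1) ^ (2 * a))

/-- FD-37: the main statement on the grid -/
def S_CORE : Prop := ∀ a : ℝ, 0 < a → a ≤ 1 / 28 → ∃ n0 : ℕ, ∀ n : ℕ, n0 ≤ n →
  ∀ Mr : ℝ, 1 ≤ Mr → Mr ≤ ((n : ℝ) + 1) ^ (1 / 2 - 7 * a) →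
    ∀ K : ℕ, Mr * ((n : ℝ) + 1) ^ (2 * a) ≤ 2 * K + 2 →
      ∀ (ι : Type) (P : Finset ι) (w : ι → ℝ) (V : ℝ) (o : ι → Fin 3 → ℕ) (u : Fin 3 → ℝ),
        2 * P.card ≤ 2 ^ n → (2 : ℝ) ^ n ≤ 4 * V → V ≤ 2 ^ n →
        1 ≤ E (fun x : Om 3 n => (discw P w V o u x /
          (Real.sqrt Mr * ((n : ℝ) + 1) / 50000)) ^ (2 * K + 2))

end Pool.Agent.NH99.FD
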