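import Pool.Agent.NH99.FD.Defs

set_option autoImplicit false

/-!
# Project FD: statements (deterministic part)
-/

namespace Pool.Agent.NH99.FD

open Finset

/-! ### Algebra of matching polynomials -/

/-- FD-1: basic facts on matching polynomials -/
def S_MATCH : Prop :=
  (∀ (S : Finset Ed) (y : Ed → ℝ), PowerSeries.constantCoeff (Z S y) = 1) ∧
  (∀ (S : Finset Ed) (p q : Finset Vx), del (del S p) q = del S (p ∪ q)) ∧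
  (∀ (S : Finset Ed) (y : Ed → ℝ) (v : Vx),
    Z S y = Z (del S {v}) y +
      PowerSeries.X * ∑ r ∈ star S v, PowerSeries.C (y r) * Z (del S (vs r)) y) ∧
  (∀ (S : Finset Ed) (y : Ed → ℝ),
    XD (Z S y) = PowerSeries.X * ∑ r ∈ S, PowerSeries.C (y r) * Z (del S (vs r)) y) ∧
  (∀ (S : Finset Ed) (y y' : Ed → ℝ), (∀ r ∈ S, y r = y' r) → Z S y = Z S y')

/-- FD-2: facts on the quotients `U`, the centred quotients `MM` and the correlations `th` -/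
def S_STAR : Prop :=
  (∀ (S : Finset Ed) (y : Ed → ℝ) (v : Vx) (p : Finset Vx), v ∉ p →
    U S y p = U S y (insert v p) + PowerSeries.X *
      ∑ r ∈ (star S v).filter (fun r => posn p r = ∅), PowerSeries.C (y r) * U S y (p ∪ vs r)) ∧
  (∀ (S : Finset Ed) (y : Ed → ℝ) (B p : Finset Vx), Disjoint B p →
    MM S y B p = ∑ q ∈ B.powerset, (∏ a ∈ B \ q, ab S y a) * th S y (p ∪ q)) ∧
  (∀ (S : Finset Ed) (y : Ed → ℝ) (v : Vx) (p : Finset Vx), v ∉ p →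
    th S y (insert v p) = PowerSeries.X * ∑ r ∈ star S v, PowerSeries.C (y r) *
      (U S y (vs r) * th S y p - (∏ a ∈ p ∩ vs r, -ab S y a) * MM S y (vs r) (p \ vs r))) ∧
  (∀ (S : Finset Ed) (y : Ed → ℝ) (v : Vx),
    1 - ab S y v = PowerSeries.X * ∑ r ∈ star S v, PowerSeries.C (y r) * U S y (vs r)) ∧
  (∀ (S : Finset Ed) (y : Ed → ℝ), U S y ∅ = 1 ∧ th S y ∅ = 1 ∧ ∀ v, th S y {v} = 0) ∧
  (∀ (S : Finset Ed) (y : Ed → ℝ), XD (Z S y) * (Z S y)⁻¹ =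
    PowerSeries.X * ∑ r ∈ S, PowerSeries.C (y r) * U S y (vs r)) ∧
  (∀ (S T : Finset Ed) (y : Ed → ℝ) (i : Fin 3) (c : ℕ), (∀ r ∈ S, r i ≠ c) →
    (∀ r ∈ T, r i = c) →
    Z (S ∪ T) y = Z S y * (1 + PowerSeries.X * ∑ r ∈ T, PowerSeries.C (y r) * U S y (vs r)))

/-- FD-3: the recursion in decomposed form -/
def S_DEC : Prop :=
  (∀ (S : Finset Ed) (y : Ed → ℝ) (v : Vx),
    1 - ab S y v = PowerSeries.X * (ab S y v * GG S y v + QQ S y v)) ∧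
  (∀ (S : Finset Ed) (y : Ed → ℝ) (i0 : Fin 3) (c : ℕ) (p : Finset Vx), (i0, c) ∉ p →
    th S y (insert (i0, c) p) = PowerSeries.X * (
      QQ S y (i0, c) * th S y p
      - GG S y (i0, c) * th S y (insert (i0, c) p)
      + ∑ K ∈ (univ.erase i0).powerset.filter (fun K => K.Nonempty),
          TT S y i0 c K K (fun r => ∏ a ∈ vs r, ab S y a) p
      + ∑ K ∈ (univ.erase i0).powerset.filter (fun K => K.Nonempty),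
          TT S y i0 c K (insert i0 K) (fun r => ∏ a ∈ res (univ.erase i0) r, ab S y a) p
      - ∑ i ∈ univ.erase i0,
          TT S y i0 c ∅ {i} (fun r => ∏ a ∈ res (univ.erase i) r, ab S y a) p
      - ∑ K ∈ (univ.erase i0).powerset,
          ∑ I ∈ (univ : Finset (Fin 3)).powerset.filter (fun I => K.Nonempty ∨ 2 ≤ I.card),
            TT S y i0 c K I
              (fun r => (∏ a ∈ res K r, -ab S y a) * ∏ a ∈ res Iᶜ r, ab S y a) p))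

/-! ### Finite dimensional inequalities -/

/-- factor for the number of edges in the inner sum -/
def DK (m Nb k : ℕ) : ℝ := if k = 0 then (Nb : ℝ) else m

/-- factor for the multiplicity -/
def GI (m Nb k : ℕ) : ℝ :=
  if k = 0 then (Nb : ℝ) ^ 2 else if k = 1 then (m + 3 : ℝ) * Nb else (m + 3 : ℝ) ^ 2

/-- FD-4: the basic Cauchy-Schwarz inequality -/
def S_TYP : Prop :=
  ∀ (S : Finset Ed) (L Nb m : ℕ) (i0 : Fin 3) (K I : Finset (Fin 3))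
    (cf : ℕ → Finset Vx → Ed → ℝ) (c0 : ℝ) (F : Finset Vx → ℝ),
    (∀ r ∈ S, ∀ i, r i < L) →
    (∀ r ∈ S, ∀ r' ∈ S, ∀ i j : Fin 3, i ≠ j → r i = r' i → r j = r' j → r = r') →
    (∀ v : Vx, (star S v).card ≤ Nb) → S.card ≤ Nb ^ 2 → 1 ≤ Nb → 0 ≤ c0 →
    (∀ v p, ∀ r ∈ S, |cf v p r| ≤ c0) → i0 ∉ K → K.card ≤ m →
    ∑ v ∈ range L, ∑ p ∈ VP L m,
      (∑ r ∈ S.filter (fun r => r i0 = v ∧ posn p r = K),
        cf v p r * F ((p \ res K r) ∪ res I r)) ^ 2 ≤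
      c0 ^ 2 * DK m Nb K.card * GI m Nb I.card * N2 L (m - K.card + I.card) F

/-- FD-5: the operator norm inequality and the inequality with weights -/
def S_OPN : Prop :=
  (∀ (S : Finset Ed) (y : Ed → ℝ) (L Nb m : ℕ) (ρ A σ : ℝ) (i0 i : Fin 3)
    (F : Finset Vx → ℝ), Hy S y L Nb ρ A σ → i ≠ i0 →
    ∑ v ∈ range L, ∑ p ∈ VP L m,
      (∑ r ∈ S.filter (fun r => r i0 = v ∧ posn p r = ∅), y r * F (p ∪ res {i} r)) ^ 2 ≤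
      2 * (m + 3) ^ 4 * σ ^ 10 * N2 L (m + 1) F) ∧
  (∀ (S : Finset Ed) (y : Ed → ℝ) (L Nb m : ℕ) (ρ A σ X2 : ℝ) (i0 i b : Fin 3)
    (F : Finset Vx → ℝ) (x : ℕ → ℝ), Hy S y L Nb ρ A σ → i ≠ i0 → b ≠ i0 → b ≠ i →
    ∑ c ∈ range L, x c ^ 2 ≤ X2 →
    ∑ v ∈ range L, ∑ p ∈ VP L m,
      (∑ r ∈ S.filter (fun r => r i0 = v ∧ posn p r = ∅),
        y r * x (r b) * F (p ∪ res {i} r)) ^ 2 ≤
      (m + 1) * (ρ ^ 2 * Nb * X2) * N2 L (m + 1) F)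

/-! ### The bounds for the coefficients -/

/-- FD-6: step for `GG` -/
def S_STG : Prop := ∀ (n : ℕ) (C : ℝ), 1 ≤ C → ∃ C' : ℝ, 1 ≤ C' ∧
  ∀ (S : Finset Ed) (y : Ed → ℝ) (L Nb : ℕ) (ρ A σ : ℝ), Hy S y L Nb ρ A σ →
    (∀ k ≤ n, PA S y L A σ k C) → PG S y L A σ n C'

/-- FD-7: step for `QQ` -/
def S_STQ : Prop := ∀ (n : ℕ) (C : ℝ), 1 ≤ C → ∃ C' : ℝ, 1 ≤ C' ∧
  ∀ (S : Finset Ed) (y : Ed → ℝ) (L Nb : ℕ) (ρ A σ : ℝ), Hy S y L Nb ρ A σ →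
    (∀ k ≤ n, PA S y L A σ k C) →
    (∀ k ≤ n, PT S y L A σ k 2 C ∧ PT S y L A σ k 3 C) → PQ S y L σ n C'

/-- FD-8: step for `1 - ab` -/
def S_STA : Prop := ∀ (n : ℕ) (C : ℝ), 1 ≤ C → ∃ C' : ℝ, 1 ≤ C' ∧
  ∀ (S : Finset Ed) (y : Ed → ℝ) (L Nb : ℕ) (ρ A σ : ℝ), Hy S y L Nb ρ A σ →
    (∀ k ≤ n, PA S y L A σ k C ∧ PG S y L A σ k C ∧ PQ S y L σ k C) →
    PA S y L A σ (n + 1) C'

/-- FD-P: coefficients of products -/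
def S_PRD : Prop :=
  (∀ (n : ℕ) (σ C1 C2 : ℝ) (φ ψ : PowerSeries ℝ), 0 ≤ σ → 0 ≤ C1 → 0 ≤ C2 →
    (∀ k ≤ n, |PowerSeries.coeff k φ| ≤ C1 * σ ^ (2 * k)) →
    (∀ k ≤ n, |PowerSeries.coeff k ψ| ≤ C2 * σ ^ (2 * k)) →
    ∀ k ≤ n, |PowerSeries.coeff k (φ * ψ)| ≤ (n + 1) * C1 * C2 * σ ^ (2 * k)) ∧
  (∀ (n N : ℕ) (C : ℝ), 1 ≤ C → ∃ C' : ℝ, 1 ≤ C' ∧
    ∀ (S : Finset Ed) (y : Ed → ℝ) (L Nb : ℕ) (ρ A σ : ℝ), Hy S y L Nb ρ A σ →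
      (∀ k ≤ n, PA S y L A σ k C) → ∀ s : Finset Vx, s.card ≤ N → ∀ k ≤ n,
        |PowerSeries.coeff k (∏ a ∈ s, ab S y a)| ≤ C' * σ ^ (2 * k) ∧
        |PowerSeries.coeff k (∏ a ∈ s, -ab S y a)| ≤ C' * σ ^ (2 * k))

/-- FD-9a: the terms of the recursion with `K ≠ ∅` or `2 ≤ |I|` -/
def S_TTB : Prop := ∀ (n m : ℕ) (C : ℝ), 1 ≤ C → ∃ C' : ℝ, 1 ≤ C' ∧
  ∀ (S : Finset Ed) (y : Ed → ℝ) (L Nb : ℕ) (ρ A σ : ℝ), Hy S y L Nb ρ A σ →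
    ∀ (i0 : Fin 3) (K I : Finset (Fin 3)) (w : Ed → PowerSeries ℝ), i0 ∉ K →
      (K.Nonempty ∨ 2 ≤ I.card) →
      (∀ r ∈ S, ∀ k ≤ n, |PowerSeries.coeff k (w r)| ≤ C * σ ^ (2 * k)) →
      (∀ k ≤ n, ∀ m' ≤ m + 3, PT S y L A σ k m' C) →
      σ ^ (2 * (m + 1)) * ∑ c ∈ range L, ∑ p ∈ VP L m,
        PowerSeries.coeff n (TT S y i0 c K I w p) ^ 2 ≤
        (C' * A ^ ((m + 1) / 2) * σ ^ (2 * (n + 1))) ^ 2

/-- FD-9b: the terms of the recursion with `K = ∅`, `I = {i}` -/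
def S_TTO : Prop := ∀ (n m : ℕ) (C : ℝ), 1 ≤ C → ∃ C' : ℝ, 1 ≤ C' ∧
  ∀ (S : Finset Ed) (y : Ed → ℝ) (L Nb : ℕ) (ρ A σ : ℝ), Hy S y L Nb ρ A σ →
    (∀ k ≤ n, PA S y L A σ k C) → (∀ k ≤ n, PT S y L A σ k (m + 1) C) →
    ∀ (i0 i : Fin 3), i ≠ i0 →
      σ ^ (2 * (m + 1)) * ∑ c ∈ range L, ∑ p ∈ VP L m,
        PowerSeries.coeff n (TT S y i0 c ∅ {i}
          (fun r => ∏ a ∈ res (univ.erase i) r, ab S y a) p) ^ 2 ≤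
        (C' * A ^ ((m + 1) / 2) * σ ^ (2 * (n + 1))) ^ 2

/-- FD-9: step for `th` -/
def S_STT : Prop := ∀ (n m : ℕ) (C : ℝ), 1 ≤ C → ∃ C' : ℝ, 1 ≤ C' ∧
  ∀ (S : Finset Ed) (y : Ed → ℝ) (L Nb : ℕ) (ρ A σ : ℝ), Hy S y L Nb ρ A σ →
    (∀ k ≤ n, PA S y L A σ k C ∧ PG S y L A σ k C ∧ PQ S y L σ k C) →
    (∀ k ≤ n, ∀ m' ≤ m + 2, PT S y L A σ k m' C) → PT S y L A σ (n + 1) m C'

/-- FD-10: all bounds -/
def S_FOCK : Prop := ∀ n M : ℕ, ∃ C : ℝ, 1 ≤ C ∧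
  ∀ (S : Finset Ed) (y : Ed → ℝ) (L Nb : ℕ) (ρ A σ : ℝ), Hy S y L Nb ρ A σ →
    (∀ k ≤ n, PA S y L A σ k C) ∧ ∀ k ≤ n, ∀ m ≤ M, PT S y L A σ k m C

/-- FD-11: bound for the increments -/
def S_XF : Prop := ∀ n : ℕ, ∃ C : ℝ, 1 ≤ C ∧
  ∀ (S T : Finset Ed) (y : Ed → ℝ) (L Nb : ℕ) (ρ A σ : ℝ) (i : Fin 3) (c : ℕ),
    Hy S y L Nb ρ A σ → Hy (S ∪ T) y L Nb ρ A σ → (∀ r ∈ S, r i ≠ c) → (∀ r ∈ T, r i = c) →
    |PowerSeries.coeff n (∑ r ∈ T, PowerSeries.C (y r) * U S y (vs r))| ≤ C * σ ^ (2 * n + 2)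

/-- FD-12: bound for the truncated logarithm -/
def S_WB : Prop := ∀ J : ℕ, 1 ≤ J → ∃ C : ℝ, 1 ≤ C ∧
  ∀ (S : Finset Ed) (y : Ed → ℝ) (L Nb : ℕ) (ρ A σ : ℝ), Hy S y L Nb ρ A σ →
    σ * |WJ J (Z S y) - ∑ r ∈ S, y r| ≤ C * A ^ 2

/-- FD-13: trivial bound for the truncated logarithm -/
def S_SUP : Prop := ∀ J : ℕ, 1 ≤ J → ∃ C : ℝ, 1 ≤ C ∧
  ∀ (S : Finset Ed) (y : Ed → ℝ) (Nb : ℕ) (ρ : ℝ), 0 ≤ ρ → (∀ v : Vx, (star S v).card ≤ Nb) →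
    (∀ r ∈ S, |y r| ≤ ρ) →
    |WJ J (Z S y)| ≤ C * (ρ * S.card) * (1 + ρ * Nb) ^ J ∧
    |WJ J (Z S y) - ∑ r ∈ S, y r| ≤ C * (ρ * S.card) * (ρ * Nb) * (1 + ρ * Nb) ^ J

/-! ### The truncated logarithm -/

/-- FD-14: additivity -/
def S_WJM : Prop := ∀ (J : ℕ) (φ ψ : PowerSeries ℝ), PowerSeries.constantCoeff φ ≠ 0 →
  PowerSeries.constantCoeff ψ ≠ 0 → WJ J (φ * ψ) = WJ J φ + WJ J ψ

/-- FD-15: comparison with the logarithm -/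
def S_ODE : Prop := ∀ (J : ℕ) (F : PowerSeries ℝ) (δ : ℝ), 0 ≤ δ → δ ≤ 1 / 8 →
  (∀ n < J, |PowerSeries.coeff n F| ≤ δ ^ (n + 1)) →
  |WJ J (1 + PowerSeries.X * F) - Real.log (1 + ∑ n ∈ range J, PowerSeries.coeff n F)| ≤
    2 ^ (J + 3) * δ ^ (J + 1) ∧
  |WJ J (1 + PowerSeries.X * F)| ≤ 1

/-- FD-16: pointwise martingale property -/
def S_PNT : Prop := ∀ (J : ℕ) (F : PowerSeries ℝ) (δ w : ℝ), 0 ≤ δ → δ ≤ 1 / 8 →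
  2 ^ (J + 3) * δ ^ (J + 1) ≤ 1 →
  (∀ n < J, |PowerSeries.coeff n F| ≤ δ ^ (n + 1)) →
  |(Real.exp (w + WJ J (1 + PowerSeries.X * F)) +
      Real.exp (w + WJ J (1 - PowerSeries.X * F))) / 2 - Real.exp w| ≤
    2 ^ (J + 5) * δ ^ (J + 1) * Real.exp w

end Pool.Agent.NH99.FD
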